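import Pool.Agent.Helper56.Disc.Assoc

/-!
# A family of forms with many degenerate members

For `i` different from a fixed index `l` let `z_i ^ d - d δ_i ^ (d - 1) z_i z_l ^ (d - 1)`, and add
`s z_l ^ d`. The form is degenerate if `s = (d - 1) ∑ ζ_i δ_i ^ d`, where the `ζ_i` are roots of unity
of order dividing `d - 1`.
-/

set_option autoImplicit false

namespace Pool.Agent.K9h36.Disc

open MvPolynomial Matrix Pool.Agent.Helper56.Disc

variable {n : ℕ}

section family
variable {R : Type*} [CommRing R]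

/-- the form `∑_{i ≠ l} (z_i ^ d - d δ_i ^ (d-1) z_i z_l ^ (d-1)) + s z_l ^ d` -/
noncomputable def fam (d : ℕ) (l : Fin n) (s : R) (δ : Fin n → R) : MvPolynomial (Fin n) R :=
  ∑ i ∈ Finset.univ.erase l, (X i ^ d - C ((d : R) * δ i ^ (d - 1)) * (X i * X l ^ (d - 1))) +
    C s * X l ^ d

theorem fam_isHomogeneous (d : ℕ) (hd : 1 ≤ d) (l : Fin n) (s : R) (δ : Fin n → R) :
    (fam d l s δ).IsHomogeneous d := by
  unfold fam
  refine IsHomogeneous.add (IsHomogeneous.sum _ _ _ fun i _ => ?_) ?_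
  · refine IsHomogeneous.sub (isHomogeneous_X_pow i d) ?_
    have h1 : (C ((d : R) * δ i ^ (d - 1)) * (X i * X l ^ (d - 1)) :
        MvPolynomial (Fin n) R).IsHomogeneous (0 + (1 + (d - 1))) :=
      (isHomogeneous_C _ _).mul ((isHomogeneous_X _ _).mul (isHomogeneous_X_pow l (d - 1)))
    have h2 : 0 + (1 + (d - 1)) = d := by omega
    rwa [h2] at h1
  · have h1 : (C s * X l ^ d : MvPolynomial (Fin n) R).IsHomogeneous (0 + d) :=
      (isHomogeneous_C _ _).mul (isHomogeneous_X_pow l d)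
    rwa [zero_add] at h1

theorem map_fam {S : Type*} [CommRing S] (φ : R →+* S) (d : ℕ) (l : Fin n) (s : R)
    (δ : Fin n → R) : map φ (fam d l s δ) = fam d l (φ s) (fun i => φ (δ i)) := by
  unfold fam
  simp only [map_add, map_sum, map_sub, map_mul, map_pow, map_X, map_C, map_natCast]

theorem fam_zero (d : ℕ) (hd : 2 ≤ d) (l : Fin n) (s : R) :
    fam d l s (fun _ => 0) = ∑ i, C (if i = l then s else 1) * X i ^ d := by
  unfold fam
  have h0 : (0 : R) ^ (d - 1) = 0 := zero_pow (by omega)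
  rw [← Finset.sum_erase_add _ _ (Finset.mem_univ l)]
  congr 1
  · apply Finset.sum_congr rfl
    intro i hi
    rw [if_neg (Finset.ne_of_mem_erase hi), h0]
    simp
  · simp

end family

theorem eval_pderiv_fam (d : ℕ) (l : Fin n) (s : ℂ) (δ z : Fin n → ℂ) (j : Fin n) (hj : j ≠ l) :
    eval z (pderiv j (fam d l s δ)) = d * z j ^ (d - 1) - d * δ j ^ (d - 1) * z l ^ (d - 1) := by
  unfold fam
  have hl : l ≠ j := fun h => hj h.symm
  rw [map_add, map_sum, map_add, map_sum, Finset.sum_eq_single j]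
  · simp [pderiv_X, Pi.single_apply, hl, hj, Derivation.leibniz_pow]
  · intro i _ hij
    simp [pderiv_X, Pi.single_apply, hl, hij, Derivation.leibniz_pow]
  · intro h
    exact absurd (Finset.mem_erase.2 ⟨hj, Finset.mem_univ _⟩) h

theorem eval_pderiv_fam_self (d : ℕ) (l : Fin n) (s : ℂ) (δ z : Fin n → ℂ) :
    eval z (pderiv l (fam d l s δ)) =
      ∑ i ∈ Finset.univ.erase l, -((d : ℂ) * δ i ^ (d - 1) * (z i * (((d - 1 : ℕ) : ℂ) *
        z l ^ (d - 1 - 1)))) + s * (d * z l ^ (d - 1)) := by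
  unfold fam
  rw [map_add, map_sum, map_add, map_sum]
  congr 1
  · apply Finset.sum_congr rfl
    intro i hi
    have hl : i ≠ l := Finset.ne_of_mem_erase hi
    simp [pderiv_X, Pi.single_apply, hl, Derivation.leibniz_pow]
  · simp [pderiv_X, Derivation.leibniz_pow]

theorem fam_degenerate (d : ℕ) (hd : 1 ≤ d) (l : Fin n) (s : ℂ) (δ ζ : Fin n → ℂ)
    (hζ : ∀ i, i ≠ l → ζ i ^ (d - 1) = 1)
    (hs : s = ((d - 1 : ℕ) : ℂ) * ∑ i ∈ Finset.univ.erase l, ζ i * δ i ^ d) :
    ¬ Nondegenerate (fam d l s δ) := by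
  intro h
  have h1 := h (fun i => if i = l then 1 else ζ i * δ i) ?_
  · have := congrFun h1 l
    simp at this
  · intro j
    by_cases hj : j = l
    · subst hj
      rw [eval_pderiv_fam_self]
      simp only [if_true, one_pow, mul_one]
      rw [hs, Finset.mul_sum, Finset.sum_mul, ← Finset.sum_add_distrib]
      apply Finset.sum_eq_zero
      intro i hi
      rw [if_neg (Finset.ne_of_mem_erase hi)]
      have : δ i ^ d = δ i ^ (d - 1) * δ i := by
        rw [← pow_succ]; congr 1; omega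
      rw [this]
      ring
    · rw [eval_pderiv_fam _ _ _ _ _ _ hj]
      simp only [if_neg hj, if_true, one_pow, mul_one]
      rw [mul_pow, hζ j hj]
      ring

end Pool.Agent.K9h36.Disc
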