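import Pool.Agent.K9h36.Disc.Order

/-!
# Macaulay's minor at the Fermat forms
-/

set_option autoImplicit false

namespace Pool.Agent.K9h36.Disc

open MvPolynomial Matrix Pool.Agent.Helper56.Disc

variable {n d : ℕ}

section general
variable {R : Type*} [CommRing R]

/-- the Fermat form with the coefficients `w` -/
noncomputable def fer (d : ℕ) (w : Fin n → R) : MvPolynomial (Fin n) R :=
  ∑ i, C (w i) * X i ^ d

theorem pderiv_fer (w : Fin n → R) (j : Fin n) :
    pderiv j (fer d w) = C (w j * d) * X j ^ (d - 1) := by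
  unfold fer
  rw [map_sum, Finset.sum_eq_single j]
  · simp [pderiv_X, Derivation.leibniz_pow]
    ring
  · intro i _ hij
    simp [pderiv_X, Pi.single_apply, hij, hij.symm, Derivation.leibniz_pow]
  · simp

theorem pderiv_pderiv_fer (w : Fin n → R) (i j : Fin n) :
    pderiv j (pderiv i (fer d w)) =
      if i = j then C (w i * d * ((d - 1 : ℕ) : R)) * X i ^ (d - 2) else 0 := by
  rw [pderiv_fer]
  split_ifs with h
  · subst h
    have h2 : d - 1 - 1 = d - 2 := by omega
    simp [pderiv_X, Derivation.leibniz_pow, h2]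
    ring
  · have h' : j ≠ i := fun h2 => h h2.symm
    simp [pderiv_X, Pi.single_apply, h, h', Derivation.leibniz_pow]

theorem hess_fer (w : Fin n → R) :
    hess (fer d w) = monomial (Finsupp.equivFunOnFinite.symm (fun _ => d - 2))
      (∏ i, w i * d * ((d - 1 : ℕ) : R)) := by
  have h1 : (Matrix.of fun i j => pderiv j (pderiv i (fer d w))) =
      diagonal (fun i => C (w i * d * ((d - 1 : ℕ) : R)) * X i ^ (d - 2)) := by
    ext1 i j
    rw [of_apply, pderiv_pderiv_fer, diagonal_apply]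
  unfold hess
  rw [h1, det_diagonal, Finset.prod_mul_distrib, monomial_eq, Finsupp.prod_fintype _ _ (by simp),
    map_prod]
  rfl

theorem row_fer {e a : ℕ} (c : Mon n d → R) (w : Fin n → R) (hc : form c = fer d w)
    (κ : Fin n × Mon n a) (α : Mon n e) (hα : κ.2.1 + Finsupp.single κ.1 (d - 1) = α.1) :
    (row c κ : Mon n e → R) = Pi.single α (w κ.1 * d) := by
  unfold Pool.Agent.Helper56.Disc.row
  rw [hc, pderiv_fer]
  have h1 : (monomial κ.2.1 1 * (C (w κ.1 * d) * X κ.1 ^ (d - 1)) : MvPolynomial (Fin n) R) =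
      monomial α.1 (w κ.1 * d) := by
    rw [← hα, X_pow_eq_monomial, C_mul_monomial, monomial_mul]
    simp
  rw [h1]
  funext γ
  unfold cv
  rw [coeff_monomial]
  by_cases h : γ = α
  · subst h
    rw [if_pos rfl, Pi.single_eq_same]
  · rw [if_neg (fun h2 => h (Subtype.ext h2.symm)), Pi.single_eq_of_ne h]

theorem Lam_fer {a : ℕ} (α0 : Mon n (n * (d - 2))) (hα0 : ∀ i, α0.1 i = d - 2)
    (J : Mon n (n * (d - 2)) → Fin n × Mon n a)
    (hJ : ∀ α, α ≠ α0 → (J α).2.1 + Finsupp.single (J α).1 (d - 1) = α.1)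
    (c : Mon n d → R) (w : Fin n → R) (hc : form c = fer d w) :
    Lam α0 J c (hv c) = ∏ α, if α = α0 then ∏ i, w i * d * ((d - 1 : ℕ) : R)
      else w (J α).1 * d := by
  have h0 : (Finsupp.equivFunOnFinite.symm (fun _ : Fin n => d - 2)) = α0.1 := by
    ext i
    rw [hα0 i]
    rfl
  have h1 : ((Matrix.of fun α => (row c (J α) : Mon n (n * (d - 2)) → R)).updateRow α0 (hv c)) =
      diagonal (fun α => if α = α0 then ∏ i, w i * d * ((d - 1 : ℕ) : R)
      else w (J α).1 * d) := by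
    ext α β
    by_cases h : α = α0
    · subst h
      rw [updateRow_self]
      unfold hv cv
      rw [hc, hess_fer, h0, coeff_monomial, diagonal_apply]
      by_cases h2 : α = β
      · rw [if_pos h2, if_pos (congrArg Subtype.val h2), if_pos rfl]
      · rw [if_neg h2, if_neg (fun h3 => h2 (Subtype.ext h3))]
    · rw [updateRow_ne h]
      change (row c (J α) : Mon n (n * (d - 2)) → R) β = _
      rw [row_fer c w hc (J α) α (hJ α h), diagonal_apply]
      by_cases h2 : α = β
      · subst h2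
        rw [Pi.single_eq_same, if_pos rfl, if_neg h]
      · rw [Pi.single_eq_of_ne (fun h3 => h2 h3.symm), if_neg h2]
  unfold Lam
  rw [h1, det_diagonal]

end general

theorem sum_mon {e : ℕ} (α : Mon n e) : ∑ i, α.1 i = e :=
  (Finset.mem_finsuppAntidiag.1 α.2).1

/-- the monomial `(z_1 ... z_n) ^ (d - 2)` -/
noncomputable def al0 (n d : ℕ) : Mon n (n * (d - 2)) :=
  ⟨Finsupp.equivFunOnFinite.symm (fun _ => d - 2), by
    rw [Finset.mem_finsuppAntidiag]
    refine ⟨?_, Finset.subset_univ _⟩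
    simp⟩

theorem al0_apply (i : Fin n) : (al0 n d).1 i = d - 2 := rfl

/-- Macaulay's choice -/
theorem exists_choice {a : ℕ} (h : a + (d - 1) = n * (d - 2)) (hd : 2 ≤ d) (l : Fin n)
    (α : Mon n (n * (d - 2))) (hα : α ≠ al0 n d) :
    ∃ κ : Fin n × Mon n a, κ.2.1 + Finsupp.single κ.1 (d - 1) = α.1 ∧
      (κ.1 = l → ∀ j, j ≠ l → α.1 j ≤ d - 2) := by
  have key : ∀ i : Fin n, d - 1 ≤ α.1 i → (i = l → ∀ j, j ≠ l → α.1 j ≤ d - 2) →
      ∃ κ : Fin n × Mon n a, κ.2.1 + Finsupp.single κ.1 (d - 1) = α.1 ∧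
      (κ.1 = l → ∀ j, j ≠ l → α.1 j ≤ d - 2) := by
    intro i hi hl
    have hle : Finsupp.single i (d - 1) ≤ α.1 := by
      intro j
      by_cases hj : j = i
      · subst hj; rw [Finsupp.single_eq_same]; exact hi
      · rw [Finsupp.single_eq_of_ne hj]; exact Nat.zero_le _
    have hadd : α.1 - Finsupp.single i (d - 1) + Finsupp.single i (d - 1) = α.1 :=
      tsub_add_cancel_of_le hle
    refine ⟨(i, ⟨α.1 - Finsupp.single i (d - 1), mem_mon _ ?_⟩), hadd, hl⟩
    have h1 := congrArg Finsupp.degree hadd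
    rw [map_add, mon_degree, Finsupp.degree_single] at h1
    omega
  by_cases h1 : ∃ i, i ≠ l ∧ d - 1 ≤ α.1 i
  · obtain ⟨i, hil, hi⟩ := h1
    exact key i hi (fun h => absurd h hil)
  · push Not at h1
    have h2 : ∀ j, j ≠ l → α.1 j ≤ d - 2 := by
      intro j hj
      have := h1 j hj
      omega
    apply key l _ (fun _ => h2)
    by_contra h3
    push Not at h3
    have h4 : ∀ i, α.1 i ≤ d - 2 := by
      intro i
      by_cases hi : i = l
      · subst hi; omega
      · exact h2 i hi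
    apply hα
    apply Subtype.ext
    ext i
    rw [al0_apply]
    have h5 : ∑ i, α.1 i = ∑ _i : Fin n, (d - 2) := by
      rw [sum_mon]; simp
    exact (Finset.sum_eq_sum_iff_of_le (fun i _ => h4 i)).1 h5 i (Finset.mem_univ i)

/-- the number of the monomials which need the index `l` -/
theorem card_le (hd : 2 ≤ d) (l : Fin n) (T : Finset (Mon n (n * (d - 2))))
    (hT : ∀ α ∈ T, ∀ j, j ≠ l → α.1 j ≤ d - 2) : T.card ≤ (d - 1) ^ (n - 1) := by
  classical
  have hc : Fintype.card ({i : Fin n // i ≠ l} → Fin (d - 1)) = (d - 1) ^ (n - 1) := by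
    rw [Fintype.card_fun]; simp
  rw [← hc, ← Finset.card_univ]
  refine Finset.card_le_card_of_injOn
    (fun α => fun j => if h : α.1 j.1 < d - 1 then ⟨α.1 j.1, h⟩ else ⟨0, by omega⟩)
    (fun _ _ => Finset.mem_coe.2 (Finset.mem_univ _)) ?_
  intro α hα β hβ hab
  have h1 : ∀ j, j ≠ l → α.1 j = β.1 j := by
    intro j hj
    have h2 := congrFun hab ⟨j, hj⟩
    have h3 := hT α hα j hj
    have h4 := hT β hβ j hj
    simp only at h2
    rw [dif_pos (by omega), dif_pos (by omega)] at h2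
    exact congrArg Fin.val h2
  apply Subtype.ext
  ext j
  by_cases hj : j = l
  · subst hj
    have h5 := (sum_mon α).trans (sum_mon β).symm
    rw [← Finset.add_sum_erase _ _ (Finset.mem_univ j),
      ← Finset.add_sum_erase _ (fun i => β.1 i) (Finset.mem_univ j)] at h5
    have h6 : ∑ i ∈ Finset.univ.erase j, α.1 i = ∑ i ∈ Finset.univ.erase j, β.1 i :=
      Finset.sum_congr rfl fun i hi => h1 i (Finset.ne_of_mem_erase hi)
    omega
  · exact h1 j hj

theorem map_MM {R : Type*} [CommRing R] {a : ℕ} (φ : MvPolynomial (Mon n d) ℂ →+* R)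
    (α0 : Mon n (n * (d - 2))) (J : Mon n (n * (d - 2)) → Fin n × Mon n a) :
    φ (MM α0 J) = Lam α0 J (fun α => φ (X α)) (hv fun α => φ (X α)) := by
  unfold MM
  rw [Lam_map]
  congr 1
  funext γ
  exact hv_map φ _ γ

/-- the restriction to the Fermat forms -/
noncomputable def psi (n d : ℕ) (l : Fin n) : MvPolynomial (Mon n d) ℂ →+* Polynomial ℂ :=
  (ev d (fam d l (Polynomial.X : Polynomial ℂ) (fun _ => 0)) : _ →ₐ[ℂ] _)

theorem psi_apply (l : Fin n) (Δ : MvPolynomial (Mon n d) ℂ) : psi n d l Δ = QQ d l Δ := rfl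

theorem form_psi (hd : 2 ≤ d) (l : Fin n) :
    form (fun γ : Mon n d => psi n d l (X γ)) =
      fer d (fun i => if i = l then (Polynomial.X : Polynomial ℂ) else 1) := by
  have e1 : (fun γ : Mon n d => psi n d l (X γ)) =
      cv (fam d l (Polynomial.X : Polynomial ℂ) (fun _ => 0)) := by
    funext γ
    change ev d (fam d l (Polynomial.X : Polynomial ℂ) (fun _ => 0)) (X γ) = _
    unfold ev
    rw [aeval_X]
  rw [e1, form_cv _ (fam_isHomogeneous d (by omega) l _ _), fam_zero d hd]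
  rfl

theorem psi_MM {a : ℕ} (hd : 2 ≤ d) (l : Fin n)
    (J : Mon n (n * (d - 2)) → Fin n × Mon n a)
    (hJ : ∀ α, α ≠ al0 n d → (J α).2.1 + Finsupp.single (J α).1 (d - 1) = α.1) :
    psi n d l (MM (al0 n d) J) = ∏ α, if α = al0 n d then
      ∏ i, (if i = l then (Polynomial.X : Polynomial ℂ) else 1) * d *
        ((d - 1 : ℕ) : Polynomial ℂ)
      else (if (J α).1 = l then (Polynomial.X : Polynomial ℂ) else 1) * d := by
  rw [map_MM]
  exact Lam_fer (al0 n d) al0_apply J hJ _ _ (form_psi hd l)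

/-- the minor on the Fermat forms is a nonzero multiple of a small power of the parameter -/
theorem psi_MM_eq {a : ℕ} (hd : 2 ≤ d) (l : Fin n)
    (J : Mon n (n * (d - 2)) → Fin n × Mon n a)
    (hJ : ∀ α, α ≠ al0 n d → (J α).2.1 + Finsupp.single (J α).1 (d - 1) = α.1)
    (hJl : ∀ α, α ≠ al0 n d → (J α).1 = l → ∀ j, j ≠ l → α.1 j ≤ d - 2) :
    ∃ (u : ℂ) (m : ℕ), u ≠ 0 ∧ m ≤ (d - 1) ^ (n - 1) ∧
      psi n d l (MM (al0 n d) J) = Polynomial.C u * Polynomial.X ^ m := by
  classical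
  have hdc : (d : ℂ) ≠ 0 := by rw [Nat.cast_ne_zero]; omega
  have hdc' : ((d - 1 : ℕ) : ℂ) ≠ 0 := by rw [Nat.cast_ne_zero]; omega
  set T : Finset (Mon n (n * (d - 2))) :=
    Finset.univ.filter (fun α => α = al0 n d ∨ (J α).1 = l) with hT
  refine ⟨∏ α : Mon n (n * (d - 2)), (if α = al0 n d then ∏ _i : Fin n, (d : ℂ) * ((d - 1 : ℕ) : ℂ)
    else (d : ℂ)), T.card, ?_, ?_, ?_⟩
  · rw [Finset.prod_ne_zero_iff]
    intro α _
    split_ifs
    · rw [Finset.prod_ne_zero_iff]
      intro i _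
      exact mul_ne_zero hdc hdc'
    · exact hdc
  · apply card_le hd l
    intro α hα j hj
    rw [hT, Finset.mem_filter] at hα
    rcases hα.2 with h | h
    · rw [h, al0_apply]
    · by_cases h2 : α = al0 n d
      · rw [h2, al0_apply]
      · exact hJl α h2 h j hj
  · rw [psi_MM hd l J hJ, map_prod]
    have e1 : (Polynomial.X : Polynomial ℂ) ^ T.card =
        ∏ α : Mon n (n * (d - 2)), if α = al0 n d ∨ (J α).1 = l then Polynomial.X else 1 := by
      rw [Finset.prod_ite, Finset.prod_const, Finset.prod_const_one, mul_one]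
    rw [e1, ← Finset.prod_mul_distrib]
    apply Finset.prod_congr rfl
    intro α _
    by_cases h : α = al0 n d
    · rw [if_pos h, if_pos h, if_pos (Or.inl h), Finset.prod_mul_distrib, Finset.prod_mul_distrib,
        map_prod, Finset.prod_ite_eq' Finset.univ l, if_pos (Finset.mem_univ l)]
      simp only [map_mul, map_natCast]
      rw [Finset.prod_mul_distrib]
      ring
    · rw [if_neg h, if_neg h]
      by_cases h2 : (J α).1 = l
      · rw [if_pos h2, if_pos (Or.inr h2)]
        simp only [map_natCast]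
        ring
      · rw [if_neg h2, if_neg (by tauto)]
        simp

/-- Some minor is not divisible by the square of the discriminant. -/
theorem exists_minor {a : ℕ} (h : a + (d - 1) = n * (d - 2)) (hd : 2 ≤ d) (l : Fin n)
    [Nonempty (Mon n a)] (Δ : MvPolynomial (Mon n d) ℂ) (hΔ : IsDiscriminant Δ) :
    ∃ J0 : Mon n (n * (d - 2)) → Fin n × Mon n a, ¬ Δ ^ 2 ∣ MM (al0 n d) J0 := by
  classical
  have hch : ∀ α : Mon n (n * (d - 2)), ∃ κ : Fin n × Mon n a, α ≠ al0 n d →
      (κ.2.1 + Finsupp.single κ.1 (d - 1) = α.1 ∧ (κ.1 = l → ∀ j, j ≠ l → α.1 j ≤ d - 2)) := by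
    intro α
    by_cases hα : α = al0 n d
    · exact ⟨(l, Classical.arbitrary _), fun h => absurd hα h⟩
    · obtain ⟨κ, hκ⟩ := exists_choice h hd l α hα
      exact ⟨κ, fun _ => hκ⟩
  choose J0 hJ0 using hch
  refine ⟨J0, fun hdvd => ?_⟩
  have h1 := map_dvd (psi n d l) hdvd
  rw [map_pow] at h1
  have h2 : (Polynomial.X : Polynomial ℂ) ^ ((d - 1) ^ (n - 1)) ∣ psi n d l Δ :=
    X_pow_dvd_QQ d hd l Δ hΔ
  have h3 := (pow_dvd_pow_of_dvd h2 2).trans h1
  rw [← pow_mul] at h3
  obtain ⟨u, m, hu, hm, hum⟩ := psi_MM_eq hd l J0 (fun α hα => (hJ0 α hα).1)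
    (fun α hα => (hJ0 α hα).2)
  rw [hum] at h3
  have hpos : 0 < (d - 1) ^ (n - 1) := pow_pos (by omega) _
  have h4 := Polynomial.X_pow_dvd_iff.1 h3 m (by omega)
  rw [Polynomial.coeff_C_mul_X_pow, if_pos rfl] at h4
  exact hu h4

end Pool.Agent.K9h36.Disc
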