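import Pool.Agent.K9h36.Disc.Fam

/-!
# The order of vanishing of the discriminant at a degenerate Fermat form

The discriminant of `∑_{i ≠ l} z_i ^ d + s z_l ^ d` is divisible by `s ^ ((d - 1) ^ (n - 1))`.
-/

set_option autoImplicit false

namespace Pool.Agent.K9h36.Disc

open MvPolynomial Matrix Pool.Agent.Helper56.Disc

variable {n : ℕ}

/-- the value of `Δ` at a form with coefficients in a `ℂ`-algebra -/
noncomputable def ev {S : Type*} [CommRing S] [Algebra ℂ S] (d : ℕ)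
    (f : MvPolynomial (Fin n) S) : MvPolynomial (Mon n d) ℂ →ₐ[ℂ] S :=
  aeval (fun γ => cv f γ)

theorem map_ev {S T : Type*} [CommRing S] [Algebra ℂ S] [CommRing T] [Algebra ℂ T] (d : ℕ)
    (φ : S →ₐ[ℂ] T) (f : MvPolynomial (Fin n) S) (Δ : MvPolynomial (Mon n d) ℂ) :
    φ (ev d f Δ) = ev d (map (φ : S →+* T) f) Δ := by
  unfold ev
  have h := DFunLike.congr_fun (MvPolynomial.comp_aeval (fun γ : Mon n d => cv f γ) φ) Δ
  refine Eq.trans h ?_
  congr 2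

theorem ev_eq_eval (d : ℕ) (f : MvPolynomial (Fin n) ℂ) (Δ : MvPolynomial (Mon n d) ℂ) :
    ev d f Δ = eval (fun γ => cv f γ) Δ := by
  unfold ev
  rw [aeval_eq_eval]

/-- the exceptional values of the parameter `s` -/
noncomputable def rt (d : ℕ) (l : Fin n) (ζ : Fin n → ℂ) : MvPolynomial (Fin n) ℂ :=
  C ((d - 1 : ℕ) : ℂ) * ∑ i ∈ Finset.univ.erase l, C (ζ i) * X i ^ d

theorem eval_rt (d : ℕ) (l : Fin n) (ζ δ : Fin n → ℂ) :
    eval δ (rt d l ζ) = ((d - 1 : ℕ) : ℂ) * ∑ i ∈ Finset.univ.erase l, ζ i * δ i ^ d := by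
  unfold rt
  simp

theorem coeff_rt (d : ℕ) (hd : 1 ≤ d) (l : Fin n) (ζ : Fin n → ℂ) (j : Fin n) (hj : j ≠ l) :
    coeff (Finsupp.single j d) (rt d l ζ) = ((d - 1 : ℕ) : ℂ) * ζ j := by
  unfold rt
  rw [coeff_C_mul, coeff_sum, Finset.sum_eq_single j]
  · rw [coeff_C_mul, coeff_X_pow, if_pos rfl, mul_one]
  · intro i _ hij
    rw [coeff_C_mul, coeff_X_pow, if_neg, mul_zero]
    intro h
    have h2 := DFunLike.congr_fun h j
    rw [Finsupp.single_eq_same, Finsupp.single_eq_of_ne hij.symm] at h2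
    omega
  · intro h
    exact absurd (Finset.mem_erase.2 ⟨hj, Finset.mem_univ _⟩) h

/-- the discriminant on the family, a polynomial in `s` over the ring of polynomials in `δ` -/
noncomputable def PP (d : ℕ) (l : Fin n) (Δ : MvPolynomial (Mon n d) ℂ) :
    Polynomial (MvPolynomial (Fin n) ℂ) :=
  ev d (fam d l (Polynomial.X : Polynomial (MvPolynomial (Fin n) ℂ))
    (fun i => Polynomial.C (X i))) Δ

theorem ev_fam_eq_zero (d : ℕ) (hd : 1 ≤ d) (l : Fin n) (Δ : MvPolynomial (Mon n d) ℂ)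
    (hΔ : IsDiscriminant Δ) (s : ℂ) (δ ζ : Fin n → ℂ) (hζ : ∀ i, i ≠ l → ζ i ^ (d - 1) = 1)
    (hs : s = ((d - 1 : ℕ) : ℂ) * ∑ i ∈ Finset.univ.erase l, ζ i * δ i ^ d) :
    ev d (fam d l s δ) Δ = 0 := by
  rw [ev_eq_eval]
  apply (hΔ.2 _).2
  rw [form_cv _ (fam_isHomogeneous d hd l s δ)]
  exact fam_degenerate d hd l s δ ζ hζ hs

theorem map_ev_fam {S T : Type*} [CommRing S] [Algebra ℂ S] [CommRing T] [Algebra ℂ T]
    (d : ℕ) (l : Fin n) (s : S)
    (δ : Fin n → S) (φ : S →ₐ[ℂ] T) (Δ : MvPolynomial (Mon n d) ℂ) :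
    φ (ev d (fam d l s δ) Δ) = ev d (fam d l (φ s) (fun i => φ (δ i))) Δ := by
  rw [map_ev, map_fam]
  rfl

theorem isRoot_PP (d : ℕ) (hd : 1 ≤ d) (l : Fin n) (Δ : MvPolynomial (Mon n d) ℂ)
    (hΔ : IsDiscriminant Δ) (ζ : Fin n → ℂ) (hζ : ∀ i, i ≠ l → ζ i ^ (d - 1) = 1) :
    (PP d l Δ).IsRoot (rt d l ζ) := by
  rw [Polynomial.IsRoot.def]
  apply MvPolynomial.funext
  intro δ
  rw [map_zero]
  set φ : Polynomial (MvPolynomial (Fin n) ℂ) →ₐ[ℂ] ℂ :=
    (MvPolynomial.aeval δ : MvPolynomial (Fin n) ℂ →ₐ[ℂ] ℂ).comp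
      ((Polynomial.aeval (R := MvPolynomial (Fin n) ℂ) (rt d l ζ)).restrictScalars ℂ) with hφ
  have hφ1 : ∀ q, φ q = eval δ (Polynomial.eval (rt d l ζ) q) := by
    intro q
    rw [hφ, AlgHom.comp_apply, AlgHom.restrictScalars_apply, aeval_eq_eval,
      Polynomial.aeval_def, Polynomial.eval₂_eq_eval_map]
    simp
  rw [← hφ1]
  unfold PP
  rw [map_ev_fam]
  apply ev_fam_eq_zero d hd l Δ hΔ _ _ ζ hζ
  rw [hφ1, Polynomial.eval_X, eval_rt]
  congr 1
  apply Finset.sum_congr rfl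
  intro i _
  rw [hφ1, Polynomial.eval_C, eval_X]

/-- the tuples of roots of unity -/
noncomputable def zt (d : ℕ) (l : Fin n) (ω : ℂ) (k : {i : Fin n // i ≠ l} → Fin (d - 1)) :
    Fin n → ℂ := fun i => if h : i ≠ l then ω ^ (k ⟨i, h⟩ : ℕ) else 1

theorem rt_zt_injective (d : ℕ) (hd : 2 ≤ d) (l : Fin n) (ω : ℂ)
    (hω : IsPrimitiveRoot ω (d - 1)) :
    Function.Injective (fun k => rt d l (zt (n := n) d l ω k)) := by
  intro k k' h
  simp only at h
  funext ⟨i, hi⟩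
  have h1 := congrArg (coeff (Finsupp.single i d)) h
  rw [coeff_rt d (by omega) l _ i hi, coeff_rt d (by omega) l _ i hi] at h1
  have h2 : ((d - 1 : ℕ) : ℂ) ≠ 0 := by
    rw [Nat.cast_ne_zero]; omega
  have h3 := mul_left_cancel₀ h2 h1
  unfold zt at h3
  rw [dif_pos hi, dif_pos hi] at h3
  exact Fin.ext (hω.pow_inj (k ⟨i, hi⟩).2 (k' ⟨i, hi⟩).2 h3)

theorem prod_dvd_PP (d : ℕ) (hd : 2 ≤ d) (l : Fin n) (Δ : MvPolynomial (Mon n d) ℂ)
    (hΔ : IsDiscriminant Δ) (ω : ℂ) (hω : IsPrimitiveRoot ω (d - 1)) :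
    ∏ k : {i : Fin n // i ≠ l} → Fin (d - 1),
      (Polynomial.X - Polynomial.C (rt d l (zt (n := n) d l ω k))) ∣ PP d l Δ := by
  classical
  by_cases h0 : PP d l Δ = 0
  · rw [h0]; exact dvd_zero _
  have h1 : ∏ k : {i : Fin n // i ≠ l} → Fin (d - 1),
      (Polynomial.X - Polynomial.C (rt d l (zt (n := n) d l ω k))) =
      ((Finset.univ.image fun k => rt d l (zt (n := n) d l ω k)).val.map
        (fun a => Polynomial.X - Polynomial.C a)).prod := by
    rw [← Finset.prod_eq_multiset_prod, Finset.prod_image]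
    intro x _ y _ hxy
    exact rt_zt_injective d hd l ω hω hxy
  rw [h1, Multiset.prod_X_sub_C_dvd_iff_le_roots h0, Finset.val_le_iff_val_subset]
  intro a ha
  have ha' : a ∈ (Finset.univ.image fun k => rt d l (zt (n := n) d l ω k)) := ha
  obtain ⟨k, -, rfl⟩ := Finset.mem_image.1 ha'
  rw [Polynomial.mem_roots h0]
  apply isRoot_PP d (by omega) l Δ hΔ
  intro i hi
  unfold zt
  rw [dif_pos hi, ← pow_mul, mul_comm, pow_mul, hω.pow_eq_one, one_pow]

/-- the discriminant on the family of Fermat forms -/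
noncomputable def QQ (d : ℕ) (l : Fin n) (Δ : MvPolynomial (Mon n d) ℂ) : Polynomial ℂ :=
  ev d (fam d l (Polynomial.X : Polynomial ℂ) (fun _ => 0)) Δ

theorem X_pow_dvd_QQ (d : ℕ) (hd : 2 ≤ d) (l : Fin n) (Δ : MvPolynomial (Mon n d) ℂ)
    (hΔ : IsDiscriminant Δ) :
    (Polynomial.X : Polynomial ℂ) ^ ((d - 1) ^ (n - 1)) ∣ QQ d l Δ := by
  classical
  have hd1 : d - 1 ≠ 0 := by omega
  obtain ⟨ω, hω⟩ : ∃ ω : ℂ, IsPrimitiveRoot ω (d - 1) := ⟨_, Complex.isPrimitiveRoot_exp (d - 1) hd1⟩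
  have h1 := prod_dvd_PP d hd l Δ hΔ ω hω
  set θ : Polynomial (MvPolynomial (Fin n) ℂ) →ₐ[ℂ] Polynomial ℂ :=
    Polynomial.mapAlgHom (MvPolynomial.aeval (fun _ : Fin n => (0 : ℂ))) with hθ
  have h2 := map_dvd θ h1
  have e1 : θ Polynomial.X = Polynomial.X := by simp [hθ]
  have e3 : ∀ q, θ (Polynomial.C q) = Polynomial.C (eval (fun _ => 0) q) := by
    intro q
    rw [hθ, Polynomial.coe_mapAlgHom, Polynomial.map_C]
    rfl
  have h3 : θ (PP d l Δ) = QQ d l Δ := by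
    unfold PP QQ
    rw [map_ev_fam, e1]
    have e4 : (fun i : Fin n => θ (Polynomial.C (X i))) = fun _ => 0 := by
      funext i
      rw [e3, eval_X, Polynomial.C_0]
    rw [e4]
  rw [h3, map_prod] at h2
  have h4 : ∀ k : {i : Fin n // i ≠ l} → Fin (d - 1),
      θ (Polynomial.X - Polynomial.C (rt d l (zt (n := n) d l ω k))) = Polynomial.X := by
    intro k
    rw [map_sub]
    have e2 : θ (Polynomial.C (rt d l (zt (n := n) d l ω k))) = 0 := by
      rw [e3, eval_rt]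
      simp [zero_pow (show d ≠ 0 by omega)]
    rw [e1, e2, sub_zero]
  rw [Finset.prod_congr rfl (fun k _ => h4 k), Finset.prod_const, Finset.card_univ,
    Fintype.card_fun] at h2
  simpa using h2

end Pool.Agent.K9h36.Disc
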